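import Pool.Agent.Lib.MP_c7af3c_ag.T2.IfaceB

/-!
# MP_c7af3c_ag, project T2, row NORM3: two lines through the point (helper80)
`rho i f` is the restriction of `f` to the line through `(1, 0, 0)` and the point number `i`,
in the affine coordinate `X 0 / X i`. A matrix which fixes the point and the two lines acts on
`rho i f` as `(a x + e) d/dx + b`. All statements are for forms of any degree `d`.
-/

set_option autoImplicit false

namespace Pool.Agent.T2.H80

open MvPolynomial Pool.Agent.Gen Pool.Agent.Sharp Pool.Agent.Edge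
open Pool.Agent.Sharp.H75 (dco DG af)
open Pool.Agent.Edge.H65 (ssub ssub_X ssub_C ssub_hom)

variable {K : Type} [Field K]

/-! ### the restriction to a line -/

/-- the affine coordinate on the line -/
noncomputable def pt (i : Fin 3) : Fin 3 → Polynomial K :=
  fun j => if j = 0 then Polynomial.X else if j = i then 1 else 0

/-- the restriction to the line -/
noncomputable def rho (i : Fin 3) : MvPolynomial (Fin 3) K →ₐ[K] Polynomial K :=
  aeval (pt i)

theorem rho_X (i j : Fin 3) : rho (K := K) i (X j) = pt i j := by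
  unfold rho; rw [aeval_X]

theorem rho_C (i : Fin 3) (a : K) : rho i (C a) = Polynomial.C a := by
  unfold rho; rw [aeval_C]; rfl

theorem derivative_rho {i : Fin 3} (f : MvPolynomial (Fin 3) K) :
    Polynomial.derivative (rho i f) = rho i (pderiv 0 f) := by
  induction f using MvPolynomial.induction_on with
  | C a => rw [rho_C]; simp
  | add p q hp hq => rw [map_add, map_add, hp, hq, map_add, map_add]
  | mul_X p j hp =>
    rw [map_mul, Polynomial.derivative_mul, hp, pderiv_mul, map_add, map_mul, map_mul]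
    congr 2
    rw [rho_X]
    by_cases hj : j = 0
    · subst hj
      simp [pt]
    · rw [pderiv_X_of_ne hj, map_zero]
      unfold pt
      rw [if_neg hj]
      split_ifs <;> simp

theorem coeff_rho {i : Fin 3} (hi : i ≠ 0) {f : MvPolynomial (Fin 3) K} {d : ℕ}
    (hf : f.IsHomogeneous d) (m : Fin 3 →₀ ℕ) (hm : m.degree = d)
    (h : ∀ j, j ≠ 0 → j ≠ i → m j = 0) : (rho i f).coeff (m 0) = coeff m f := by
  classical
  have hdeg : ∀ m' : Fin 3 →₀ ℕ, m' ∈ f.support → m'.degree = d := by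
    intro m' hm'
    by_contra hn
    exact mem_support_iff.1 hm' (hf.coeff_eq_zero hn)
  have h1 : rho i f = ∑ m' ∈ f.support, Polynomial.C (coeff m' f) *
      ∏ j, (pt i j : Polynomial K) ^ m' j := by
    unfold rho
    rw [aeval_def, eval₂_eq']
    rfl
  have hz : ∀ m' ∈ f.support, m' ≠ m →
      (Polynomial.C (coeff m' f) * ∏ j, (pt i j : Polynomial K) ^ m' j).coeff (m 0) = 0 := by
    intro m' hm' hne
    have hd := hdeg m' hm'
    rw [Polynomial.coeff_C_mul]
    by_cases ho : ∀ j, j ≠ 0 → j ≠ i → m' j = 0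
    · have hm0 : m' 0 ≠ m 0 := by
        intro h0
        apply hne
        have e1 := hd
        have e2 := hm
        rw [Finsupp.degree_eq_sum, Fin.sum_univ_three] at e1 e2
        ext j
        fin_cases i
        · exact absurd rfl hi
        · have o1 := ho 2 (by decide) (by decide)
          have o2 := h 2 (by decide) (by decide)
          fin_cases j
          · exact h0
          · show m' 1 = m 1; omega
          · show m' 2 = m 2; omega
        · have o1 := ho 1 (by decide) (by decide)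
          have o2 := h 1 (by decide) (by decide)
          fin_cases j
          · exact h0
          · show m' 1 = m 1; omega
          · show m' 2 = m 2; omega
      have hp : ∏ j, (pt i j : Polynomial K) ^ m' j = Polynomial.X ^ m' 0 := by
        rw [Finset.prod_eq_single 0]
        · simp [pt]
        · intro j _ hj
          by_cases hji : j = i
          · unfold pt; rw [if_neg hj, if_pos hji, one_pow]
          · rw [ho j hj hji, pow_zero]
        · intro h; exact absurd (Finset.mem_univ _) h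
      rw [hp, Polynomial.coeff_X_pow, if_neg (fun h => hm0 h.symm), mul_zero]
    · push Not at ho
      obtain ⟨j, hj0, hji, hj⟩ := ho
      rw [Finset.prod_eq_zero (Finset.mem_univ j), Polynomial.coeff_zero, mul_zero]
      unfold pt
      rw [if_neg hj0, if_neg hji, zero_pow hj]
  rw [h1, Polynomial.finsetSum_coeff]
  have hp : ∏ j, (pt i j : Polynomial K) ^ m j = Polynomial.X ^ m 0 := by
    rw [Finset.prod_eq_single 0]
    · simp [pt]
    · intro j _ hj
      by_cases hji : j = i
      · unfold pt; rw [if_neg hj, if_pos hji, one_pow]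
      · rw [h j hj hji, pow_zero]
    · intro h; exact absurd (Finset.mem_univ _) h
  by_cases hs : m ∈ f.support
  · rw [Finset.sum_eq_single_of_mem m hs hz, hp, Polynomial.coeff_C_mul, Polynomial.coeff_X_pow,
      if_pos rfl, mul_one]
  · rw [Finset.sum_eq_zero, notMem_support_iff.1 hs]
    intro m' hm'
    exact hz m' hm' (fun h => hs (h ▸ hm'))

theorem coeff_rho_gt {i : Fin 3} {f : MvPolynomial (Fin 3) K} {d : ℕ}
    (hf : f.IsHomogeneous d) {n : ℕ} (hn : d < n) : (rho i f).coeff n = 0 := by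
  classical
  have h1 : rho i f = ∑ m' ∈ f.support, Polynomial.C (coeff m' f) *
      ∏ j, (pt i j : Polynomial K) ^ m' j := by
    unfold rho
    rw [aeval_def, eval₂_eq']
    rfl
  rw [h1, Polynomial.finsetSum_coeff]
  refine Finset.sum_eq_zero fun m' hm' => ?_
  have hd : m'.degree = d := by
    by_contra hn
    exact mem_support_iff.1 hm' (hf.coeff_eq_zero hn)
  rw [Finsupp.degree_eq_sum, Fin.sum_univ_three] at hd
  rw [Polynomial.coeff_C_mul]
  by_cases ho : ∀ j, j ≠ 0 → j ≠ i → m' j = 0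
  · have hp : ∏ j, (pt i j : Polynomial K) ^ m' j = Polynomial.X ^ m' 0 := by
      rw [Finset.prod_eq_single 0]
      · simp [pt]
      · intro j _ hj
        by_cases hji : j = i
        · unfold pt; rw [if_neg hj, if_pos hji, one_pow]
        · rw [ho j hj hji, pow_zero]
      · intro h; exact absurd (Finset.mem_univ _) h
    rw [hp, Polynomial.coeff_X_pow, if_neg (by omega), mul_zero]
  · push Not at ho
    obtain ⟨j, hj0, hji, hj⟩ := ho
    rw [Finset.prod_eq_zero (Finset.mem_univ j), Polynomial.coeff_zero, mul_zero]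
    unfold pt
    rw [if_neg hj0, if_neg hji, zero_pow hj]

/-! ### divisibility by a monomial -/

theorem exists_quot {g : MvPolynomial (Fin 3) K} {d : ℕ} (hg : g.IsHomogeneous d)
    (s : Fin 3 →₀ ℕ) (h : ∀ m : Fin 3 →₀ ℕ, m.degree = d → ¬ s ≤ m → coeff m g = 0) :
    ∃ b : MvPolynomial (Fin 3) K, b.IsHomogeneous (d - s.degree) ∧ monomial s 1 * b = g := by
  refine ⟨divMonomial g s, ?_, ?_⟩
  · intro m hm
    rw [coeff_divMonomial] at hm
    have h1 : (s + m).degree = d := by
      by_contra hn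
      exact hm (hg.coeff_eq_zero hn)
    rw [map_add] at h1
    have h2 : Finsupp.weight (1 : Fin 3 → ℕ) m = m.degree := by
      rw [Finsupp.degree_eq_weight_one]
      rfl
    rw [h2]
    omega
  · have h1 : modMonomial g s = 0 := by
      ext m
      rw [coeff_zero]
      by_cases hs : s ≤ m
      · exact coeff_modMonomial_of_le _ hs
      · rw [coeff_modMonomial_of_not_le _ hs]
        by_cases hd : m.degree = d
        · exact h m hd hs
        · exact hg.coeff_eq_zero hd
    have h2 := divMonomial_add_modMonomial g s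
    rw [h1, add_zero] at h2
    exact h2

/-- a form which vanishes on the line is a multiple of its equation -/
theorem mem_of_rho_one {g : MvPolynomial (Fin 3) K} {d : ℕ} (hg : g.IsHomogeneous d)
    (h : rho 1 g = 0) : g ∈ mulS (X 2) (d - 1) := by
  obtain ⟨b, hb, hb2⟩ := exists_quot hg (Finsupp.single 2 1) (fun m hm hs => by
    have h2 : m 2 = 0 := by
      by_contra h2
      exact hs (Finsupp.single_le_iff.2 (Nat.one_le_iff_ne_zero.2 h2))
    rw [← coeff_rho (i := 1) (by decide) hg m hm (fun j h0 h1 => by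
      fin_cases j
      · exact absurd rfl h0
      · exact absurd rfl h1
      · exact h2), h, Polynomial.coeff_zero])
  rw [Finsupp.degree_single] at hb
  exact mem_mulS.2 ⟨b, hb, hb2⟩

theorem mem_of_rho_two {g : MvPolynomial (Fin 3) K} {d : ℕ} (hg : g.IsHomogeneous d)
    (h : rho 2 g = 0) : g ∈ mulS (X 1) (d - 1) := by
  obtain ⟨b, hb, hb2⟩ := exists_quot hg (Finsupp.single 1 1) (fun m hm hs => by
    have h2 : m 1 = 0 := by
      by_contra h2
      exact hs (Finsupp.single_le_iff.2 (Nat.one_le_iff_ne_zero.2 h2))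
    rw [← coeff_rho (i := 2) (by decide) hg m hm (fun j h0 h1 => by
      fin_cases j
      · exact absurd rfl h0
      · exact h2
      · exact absurd rfl h1), h, Polynomial.coeff_zero])
  rw [Finsupp.degree_single] at hb
  exact mem_mulS.2 ⟨b, hb, hb2⟩

/-- a form which vanishes on both lines -/
theorem mem_of_rho {g : MvPolynomial (Fin 3) K} {d : ℕ} (hg : g.IsHomogeneous d)
    (h1 : rho 1 g = 0) (h2 : rho 2 g = 0) : g ∈ mulS (X 1 * X 2) (d - 2) := by
  obtain ⟨b, hb, hb2⟩ := exists_quot hg (Finsupp.single 1 1 + Finsupp.single 2 1)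
    (fun m hm hs => by
      have h3 : m 1 = 0 ∨ m 2 = 0 := by
        by_contra h3
        push Not at h3
        apply hs
        intro j
        fin_cases j
        · simp
        · have := h3.1
          simp
          omega
        · have := h3.2
          simp
          omega
      rcases h3 with h3 | h3
      · rw [← coeff_rho (i := 2) (by decide) hg m hm (fun j h0 h1 => by
          fin_cases j
          · exact absurd rfl h0
          · exact h3
          · exact absurd rfl h1), h2, Polynomial.coeff_zero]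
      · rw [← coeff_rho (i := 1) (by decide) hg m hm (fun j h0 h1 => by
          fin_cases j
          · exact absurd rfl h0
          · exact absurd rfl h1
          · exact h3), h1, Polynomial.coeff_zero])
  rw [map_add, Finsupp.degree_single, Finsupp.degree_single] at hb
  refine mem_mulS.2 ⟨b, hb, ?_⟩
  rw [← hb2]
  congr 1
  rw [X, X, monomial_mul, one_mul]

theorem rho_mulS {i : Fin 3} (hi : i ≠ 0) {g : MvPolynomial (Fin 3) K} {r : ℕ}
    (h : g ∈ mulS (X 1 * X 2) r) : rho i g = 0 := by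
  obtain ⟨b, -, rfl⟩ := mem_mulS.1 h
  rw [map_mul, map_mul, rho_X, rho_X]
  unfold pt
  fin_cases i
  · exact absurd rfl hi
  · simp
  · simp

/-! ### the matrices which fix the point and the two lines -/

/-- the entries -/
theorem entries {L : Fin 3 → Fin 3 → K} {c c' : K}
    (hy : ∀ j, ∑ i, L j i * (![1, 0, 0] : Fin 3 → K) i = c' * (![1, 0, 0] : Fin 3 → K) j)
    (hq : af L (X 1 * X 2) = C c * (X 1 * X 2)) :
    L 1 0 = 0 ∧ L 2 0 = 0 ∧ L 1 2 = 0 ∧ L 2 1 = 0 := by
  have y1 := hy 1
  have y2 := hy 2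
  simp [Fin.sum_univ_three] at y1 y2
  have p0 : pderiv 0 (X 1 * X 2 : MvPolynomial (Fin 3) K) = 0 := by
    simp
  have p1 : pderiv 1 (X 1 * X 2 : MvPolynomial (Fin 3) K) = X 2 := by
    simp
  have p2 : pderiv 2 (X 1 * X 2 : MvPolynomial (Fin 3) K) = X 1 := by
    simp
  have key : ∀ z : Fin 3 → K, (∑ q, L 1 q * z q) * z 2 + (∑ q, L 2 q * z q) * z 1 =
      c * (z 1 * z 2) := by
    intro z
    have h := congrArg (eval z) hq
    unfold af Pool.Agent.Sharp.H75.lf at h
    rw [Fin.sum_univ_three, p0, p1, p2] at h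
    simp only [map_add, map_mul, map_sum, eval_C, eval_X, map_zero, mul_zero, zero_add] at h
    exact h
  have e1 := key ![0, 0, 1]
  have e2 := key ![0, 1, 0]
  simp [Fin.sum_univ_three] at e1 e2
  exact ⟨y1, y2, e1, e2⟩

theorem rho_lf {i : Fin 3} (hi : i ≠ 0) (a : Fin 3 → K) :
    rho i (Pool.Agent.Sharp.H75.lf (n := 2) a) =
      Polynomial.C (a 0) * Polynomial.X + Polynomial.C (a i) := by
  change rho i (∑ q : Fin 3, C (a q) * X q) = _
  rw [Fin.sum_univ_three]
  simp only [map_add, map_mul, rho_C, rho_X, pt]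
  fin_cases i
  · exact absurd rfl hi
  · simp
  · simp

/-- the action on the restriction to a line -/
theorem act {i : Fin 3} (hi : i ≠ 0) {L : Fin 3 → Fin 3 → K} {f : MvPolynomial (Fin 3) K} {d : ℕ}
    (hf : f.IsHomogeneous d) (h10 : L 1 0 = 0) (h20 : L 2 0 = 0) (h12 : L 1 2 = 0)
    (h21 : L 2 1 = 0) :
    rho i (af L f) = (Polynomial.C (L 0 0 - L i i) * Polynomial.X + Polynomial.C (L 0 i)) *
      Polynomial.derivative (rho i f) + Polynomial.C (d * L i i) * rho i f := by
  have he : ∑ i, X i * pderiv i f = d • f := hf.sum_X_mul_pderiv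
  have he2 := congrArg (rho i) he
  have h0 : rho i (af L f) = ∑ p : Fin 3, rho i (Pool.Agent.Sharp.H75.lf (n := 2) (L p)) * rho i (pderiv p f) := by
    unfold af
    rw [map_sum]
    exact Finset.sum_congr rfl fun p _ => map_mul _ _ _
  rw [Fin.sum_univ_three] at h0 he2
  rw [h0, derivative_rho, rho_lf hi, rho_lf hi, rho_lf hi]
  simp only [map_add, map_mul, rho_X, map_nsmul, nsmul_eq_mul, pt] at he2
  simp only [map_mul, map_sub, map_natCast]
  fin_cases i
  · exact absurd rfl hi
  · simp at he2 ⊢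
    rw [h10, h20, h21]
    simp
    linear_combination (Polynomial.C (L 1 1)) * he2
  · simp at he2 ⊢
    rw [h10, h20, h12]
    simp
    linear_combination (Polynomial.C (L 2 2)) * he2

/-! ### polynomials in one variable -/

theorem coeff_X_mul_derivative (p : Polynomial K) (n : ℕ) :
    (Polynomial.X * Polynomial.derivative p).coeff n = n * p.coeff n := by
  cases n with
  | zero => rw [Polynomial.coeff_X_mul_zero, Nat.cast_zero, zero_mul]
  | succ n =>
    rw [Polynomial.coeff_X_mul, Polynomial.coeff_derivative]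
    push_cast
    ring

theorem lead {r : Polynomial K} (hr : r ≠ 0) {a e b : K}
    (h : (Polynomial.C a * Polynomial.X + Polynomial.C e) * Polynomial.derivative r +
      Polynomial.C b * r = 0) : a * r.natDegree + b = 0 := by
  have h1 := congrArg (fun p => Polynomial.coeff p r.natDegree) h
  simp only [add_mul, mul_assoc, Polynomial.coeff_add, Polynomial.coeff_C_mul,
    coeff_X_mul_derivative, Polynomial.coeff_derivative, Polynomial.coeff_zero] at h1
  rw [Polynomial.coeff_eq_zero_of_natDegree_lt (Nat.lt_succ_self _)] at h1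
  have h2 : r.coeff r.natDegree ≠ 0 := Polynomial.leadingCoeff_ne_zero.2 hr
  have h3 : (a * r.natDegree + b) * r.coeff r.natDegree = 0 := by
    linear_combination h1
  exact (mul_eq_zero.1 h3).resolve_right h2

theorem pow_form [CharZero K] {p : Polynomial K} {s : K} {n : ℕ}
    (h : (Polynomial.X + Polynomial.C s) * Polynomial.derivative p =
      Polynomial.C (n : K) * p) :
    ∃ c, p = Polynomial.C c * (Polynomial.X + Polynomial.C s) ^ n := by
  obtain ⟨p', hp'⟩ : ∃ p', p' = p.comp (Polynomial.X - Polynomial.C s) := ⟨_, rfl⟩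
  have h1 : Polynomial.X * Polynomial.derivative p' = Polynomial.C (n : K) * p' := by
    have h2 := congrArg (fun q => Polynomial.comp q (Polynomial.X - Polynomial.C s)) h
    simp only [Polynomial.mul_comp, Polynomial.add_comp, Polynomial.X_comp,
      Polynomial.C_comp, sub_add_cancel] at h2
    rw [hp', Polynomial.derivative_comp]
    simp only [Polynomial.derivative_sub, Polynomial.derivative_X, Polynomial.derivative_C,
      sub_zero, one_mul]
    exact h2
  have h2 : ∀ k, k ≠ n → p'.coeff k = 0 := by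
    intro k hk
    have h3 := congrArg (fun q => Polynomial.coeff q k) h1
    simp only [coeff_X_mul_derivative, Polynomial.coeff_C_mul] at h3
    have h4 : ((k : K) - n) * p'.coeff k = 0 := by linear_combination h3
    refine (mul_eq_zero.1 h4).resolve_left (sub_ne_zero.2 ?_)
    exact_mod_cast hk
  have h3 : p' = Polynomial.C (p'.coeff n) * Polynomial.X ^ n := by
    ext k
    rw [Polynomial.coeff_C_mul, Polynomial.coeff_X_pow]
    by_cases hk : k = n
    · rw [hk, if_pos rfl, mul_one]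
    · rw [if_neg hk, mul_zero, h2 k hk]
  refine ⟨p'.coeff n, ?_⟩
  have h4 : p = p'.comp (Polynomial.X + Polynomial.C s) := by
    rw [hp', Polynomial.comp_assoc]
    simp
  rw [h4]
  conv_lhs => rw [h3]
  simp

/-! ### the normal form on the two lines -/

theorem natDegree_rho {i : Fin 3} (hi : i ≠ 0) {f : MvPolynomial (Fin 3) K} {d : ℕ}
    (hf : f.IsHomogeneous d) (hc : coeff (Finsupp.single 0 d) f = 0) (hr : rho i f ≠ 0) :
    (rho i f).natDegree < d := by
  by_contra hn
  push Not at hn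
  have h1 : (rho i f).coeff (rho i f).natDegree = 0 := by
    rcases hn.eq_or_lt with h | h
    · rw [← h]
      have h2 := coeff_rho hi hf (Finsupp.single 0 d) (by rw [Finsupp.degree_single])
        (fun j hj _ => by rw [Finsupp.single_apply, if_neg (Ne.symm hj)])
      rw [Finsupp.single_eq_same] at h2
      rw [h2, hc]
    · exact coeff_rho_gt hf h
  exact hr (Polynomial.leadingCoeff_eq_zero.1 h1)

theorem form_of {r : Polynomial K} [CharZero K] (hr : r ≠ 0) {d : ℕ} (hd : r.natDegree < d)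
    {α γ ε : K} (hα : α ≠ 0)
    (h : (Polynomial.C (α - γ) * Polynomial.X + Polynomial.C ε) * Polynomial.derivative r +
      Polynomial.C (d * γ) * r = 0) :
    ∃ s c, r = Polynomial.C c * (Polynomial.X + Polynomial.C s) ^ r.natDegree := by
  have h1 := lead hr h
  have hdn : ((d : K) - r.natDegree) ≠ 0 := sub_ne_zero.2 (by exact_mod_cast hd.ne')
  have hd0 : (d : K) ≠ 0 := by
    have : d ≠ 0 := by omega
    exact_mod_cast this
  have h2 : α - γ ≠ 0 := by
    intro h2
    rw [h2, zero_mul, zero_add] at h1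
    rcases mul_eq_zero.1 h1 with h3 | h3
    · exact hd0 h3
    · rw [h3, sub_zero] at h2
      exact hα h2
  refine ⟨ε / (α - γ), ?_⟩
  apply pow_form
  have h3 : Polynomial.C (α - γ) ≠ 0 := by rwa [Ne, Polynomial.C_eq_zero]
  apply mul_left_cancel₀ h3
  have h4 : Polynomial.C (α - γ) * Polynomial.C (ε / (α - γ)) = Polynomial.C ε := by
    rw [← Polynomial.C_mul, mul_div_cancel₀ _ h2]
  have h5 : Polynomial.C (α - γ) * Polynomial.C (r.natDegree : K) + Polynomial.C (d * γ) = 0 := by
    rw [← Polynomial.C_mul, ← Polynomial.C_add, h1, Polynomial.C_0]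
  linear_combination h + Polynomial.derivative r * h4 - r * h5

theorem const_of {r : Polynomial K} [CharZero K] (h : Polynomial.derivative r = 0) :
    ∃ s c, r = Polynomial.C c * (Polynomial.X + Polynomial.C s) ^ r.natDegree := by
  have h1 := Polynomial.derivative_eq_zero.1 h
  refine ⟨0, r.coeff 0, ?_⟩
  rw [h1, pow_zero, mul_one]
  exact Polynomial.eq_C_of_natDegree_eq_zero h1

/-- the restrictions to the two lines -/
theorem core [CharZero K] {f : MvPolynomial (Fin 3) K} {d : ℕ}
    (hf : f.IsHomogeneous d) (hc : coeff (Finsupp.single 0 d) f = 0)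
    (h1 : rho 1 f ≠ 0) (h2 : rho 2 f ≠ 0) (M : Submodule K (Fin 3 → Fin 3 → K))
    (two : 2 ≤ Module.finrank K M)
    (fy : ∀ L ∈ M, ∃ c, ∀ j, ∑ i, L j i * (![1, 0, 0] : Fin 3 → K) i =
      c * (![1, 0, 0] : Fin 3 → K) j)
    (fq : ∀ L ∈ M, ∃ c, af L (X 1 * X 2) = C c * (X 1 * X 2))
    (ff : ∀ L ∈ M, af L f ∈ mulS (X 1 * X 2) (d - 2)) :
    (∃ s c, rho 1 f = Polynomial.C c * (Polynomial.X + Polynomial.C s) ^ (rho 1 f).natDegree) ∧
    ∃ s c, rho 2 f = Polynomial.C c * (Polynomial.X + Polynomial.C s) ^ (rho 2 f).natDegree := by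
  have hd : ∀ i : Fin 3, i ≠ 0 → rho i f ≠ 0 → (rho i f).natDegree < d := fun i hi hr =>
    natDegree_rho hi hf hc hr
  have heq : ∀ L ∈ M, ∀ i : Fin 3, i ≠ 0 →
      (Polynomial.C (L 0 0 - L i i) * Polynomial.X + Polynomial.C (L 0 i)) *
      Polynomial.derivative (rho i f) + Polynomial.C (d * L i i) * rho i f = 0 := by
    intro L hL i hi
    obtain ⟨c', hy⟩ := fy L hL
    obtain ⟨c, hq⟩ := fq L hL
    obtain ⟨e1, e2, e3, e4⟩ := entries hy hq
    rw [← act hi hf e1 e2 e3 e4]
    exact rho_mulS hi (ff L hL)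
  by_cases hα : ∃ L ∈ M, L 0 0 ≠ 0
  · obtain ⟨L, hL, hα⟩ := hα
    exact ⟨form_of h1 (hd 1 (by decide) h1) hα (heq L hL 1 (by decide)),
      form_of h2 (hd 2 (by decide) h2) hα (heq L hL 2 (by decide))⟩
  · push Not at hα
    have hγ : ∀ L ∈ M, ∀ i : Fin 3, i ≠ 0 → rho i f ≠ 0 → L i i = 0 ∧
        Polynomial.C (L 0 i) * Polynomial.derivative (rho i f) = 0 := by
      intro L hL i hi hr
      have h3 := heq L hL i hi
      have h4 := lead hr h3
      rw [hα L hL] at h4
      have hdn : ((d : K) - (rho i f).natDegree) ≠ 0 :=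
        sub_ne_zero.2 (by exact_mod_cast (hd i hi hr).ne')
      have h5 : L i i = 0 := by
        have h6 : ((d : K) - (rho i f).natDegree) * L i i = 0 := by linear_combination h4
        exact (mul_eq_zero.1 h6).resolve_left hdn
      refine ⟨h5, ?_⟩
      rw [h5, hα L hL] at h3
      simpa using h3
    have hsmall : ∀ i : Fin 3, (∀ L ∈ M, L 0 i = 0 → L = 0) → False := by
      intro i hi
      let u : M →ₗ[K] K :=
        { toFun := fun L => L.1 0 i
          map_add' := fun a b => rfl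
          map_smul' := fun c a => rfl }
      have hu : Function.Injective u := by
        rw [← LinearMap.ker_eq_bot, LinearMap.ker_eq_bot']
        intro L hL
        exact Subtype.ext (hi L.1 L.2 hL)
      have h3 := LinearMap.finrank_le_finrank_of_injective hu
      rw [Module.finrank_self] at h3
      omega
    have hent : ∀ L ∈ M, L 0 1 = 0 → L 0 2 = 0 → L = 0 := by
      intro L hL a1 a2
      obtain ⟨c', hy⟩ := fy L hL
      obtain ⟨c, hq⟩ := fq L hL
      obtain ⟨e1, e2, e3, e4⟩ := entries hy hq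
      have e5 := (hγ L hL 1 (by decide) h1).1
      have e6 := (hγ L hL 2 (by decide) h2).1
      have e7 := hα L hL
      funext i j
      fin_cases i <;> fin_cases j <;> simp [a1, a2, e1, e2, e3, e4, e5, e6, e7]
    constructor
    · apply const_of
      by_contra hne
      refine hsmall 2 fun L hL h0 => hent L hL ?_ h0
      have h3 := (hγ L hL 1 (by decide) h1).2
      have h4 := (mul_eq_zero.1 h3).resolve_right hne
      rwa [Polynomial.C_eq_zero] at h4
    · apply const_of
      by_contra hne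
      refine hsmall 1 fun L hL h0 => hent L hL h0 ?_
      have h3 := (hγ L hL 2 (by decide) h2).2
      have h4 := (mul_eq_zero.1 h3).resolve_right hne
      rwa [Polynomial.C_eq_zero] at h4

/-! ### the normal form -/

/-- the frame -/
def gf (s₁ s₂ ν₁ ν₂ : K) : Fin 3 → Fin 3 → K :=
  ![![1, 0, 0], ![-(s₁ * ν₁), ν₁, 0], ![-(s₂ * ν₂), 0, ν₂]]

theorem gf_X0 (s₁ s₂ ν₁ ν₂ : K) : ssub (n := 2) (gf s₁ s₂ ν₁ ν₂) (X 0) =
    X 0 + C (-(s₁ * ν₁)) * X 1 + C (-(s₂ * ν₂)) * X 2 := by
  rw [ssub_X, Fin.sum_univ_three]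
  simp [gf]

theorem gf_X1 (s₁ s₂ ν₁ ν₂ : K) : ssub (n := 2) (gf s₁ s₂ ν₁ ν₂) (X 1) = C ν₁ * X 1 := by
  rw [ssub_X, Fin.sum_univ_three]
  simp [gf]

theorem gf_X2 (s₁ s₂ ν₁ ν₂ : K) : ssub (n := 2) (gf s₁ s₂ ν₁ ν₂) (X 2) = C ν₂ * X 2 := by
  rw [ssub_X, Fin.sum_univ_three]
  simp [gf]

theorem gf_li {s₁ s₂ ν₁ ν₂ : K} (h1 : ν₁ ≠ 0) (h2 : ν₂ ≠ 0) :
    LinearIndependent K (gf s₁ s₂ ν₁ ν₂) := by
  rw [Fintype.linearIndependent_iff]
  intro a ha
  have e0 := congrFun ha 0
  have e1 := congrFun ha 1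
  have e2 := congrFun ha 2
  simp [Fin.sum_univ_three, gf] at e0 e1 e2
  have a1 : a 1 = 0 := e1.resolve_right h1
  have a2 : a 2 = 0 := e2.resolve_right h2
  rw [a1, a2, zero_mul, zero_mul, neg_zero, add_zero, add_zero] at e0
  intro i
  fin_cases i
  · exact e0
  · exact a1
  · exact a2

/-- The normal form for two lines through the point, forms of degree `d`. -/
theorem norm3d [CharZero K] [IsAlgClosed K] {f : MvPolynomial (Fin 3) K} {d : ℕ}
    (hf : f.IsHomogeneous d) (hc : coeff (Finsupp.single 0 d) f = 0)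
    (hz1 : f ∉ mulS (X 1) (d - 1)) (hz2 : f ∉ mulS (X 2) (d - 1))
    (M : Submodule K (Fin 3 → Fin 3 → K)) (two : 2 ≤ Module.finrank K M)
    (fy : ∀ L ∈ M, ∃ c, ∀ j, ∑ i, L j i * (![1, 0, 0] : Fin 3 → K) i =
      c * (![1, 0, 0] : Fin 3 → K) j)
    (fq : ∀ L ∈ M, ∃ c, af L (X 1 * X 2) = C c * (X 1 * X 2))
    (ff : ∀ L ∈ M, af L f ∈ mulS (X 1 * X 2) (d - 2)) :
    ∃ (n₁ n₂ : ℕ) (s₁ s₂ ν₁ ν₂ : K), n₁ < d ∧ n₂ < d ∧ ν₁ ≠ 0 ∧ ν₂ ≠ 0 ∧
      ssub (n := 2) (gf s₁ s₂ ν₁ ν₂) f -
        (X 0 ^ n₁ * X 1 ^ (d - n₁) + X 0 ^ n₂ * X 2 ^ (d - n₂)) ∈ mulS (X 1 * X 2) (d - 2) := by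
  have h1 : rho 1 f ≠ 0 := fun h => hz2 (mem_of_rho_one hf h)
  have h2 : rho 2 f ≠ 0 := fun h => hz1 (mem_of_rho_two hf h)
  have l1 := natDegree_rho (i := 1) (by decide) hf hc h1
  have l2 := natDegree_rho (i := 2) (by decide) hf hc h2
  obtain ⟨⟨s₁, c₁, e1⟩, s₂, c₂, e2⟩ := core hf hc h1 h2 M two fy fq ff
  obtain ⟨n₁, hn₁⟩ : ∃ n, n = (rho 1 f).natDegree := ⟨_, rfl⟩
  obtain ⟨n₂, hn₂⟩ : ∃ n, n = (rho 2 f).natDegree := ⟨_, rfl⟩
  rw [← hn₁] at e1 l1
  rw [← hn₂] at e2 l2
  have c1 : c₁ ≠ 0 := by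
    rintro rfl
    apply h1
    rw [e1, Polynomial.C_0, zero_mul]
  have c2 : c₂ ≠ 0 := by
    rintro rfl
    apply h2
    rw [e2, Polynomial.C_0, zero_mul]
  -- `f` modulo `X 1 * X 2`
  have hp : ∀ (i : Fin 3) (c s : K) (n : ℕ), n < d →
      (C c * (X 0 + C s * X i) ^ n * X i ^ (d - n)).IsHomogeneous d := by
    intro i c s n hn
    have a1 : (X 0 + C s * X i : MvPolynomial (Fin 3) K).IsHomogeneous 1 := by
      refine (isHomogeneous_X K 0).add ?_
      have := (isHomogeneous_C (Fin 3) s).mul (isHomogeneous_X K i)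
      simpa using this
    have a2 := ((isHomogeneous_C (Fin 3) c).mul (a1.pow n)).mul
      ((isHomogeneous_X K i).pow (d - n))
    have a3 : 0 + 1 * n + 1 * (d - n) = d := by omega
    rwa [a3] at a2
  have hmem : f - (C c₁ * (X 0 + C s₁ * X 1) ^ n₁ * X 1 ^ (d - n₁) +
      C c₂ * (X 0 + C s₂ * X 2) ^ n₂ * X 2 ^ (d - n₂)) ∈ mulS (X 1 * X 2) (d - 2) := by
    apply mem_of_rho
    · exact hf.sub ((hp 1 c₁ s₁ n₁ l1).add (hp 2 c₂ s₂ n₂ l2))
    · have z : (0 : Polynomial K) ^ (d - n₂) = 0 := zero_pow (by omega)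
      rw [map_sub, map_add, e1]
      simp only [map_mul, map_add, map_pow, rho_X, rho_C, pt]
      simp [z]
    · have z : (0 : Polynomial K) ^ (d - n₁) = 0 := zero_pow (by omega)
      rw [map_sub, map_add, e2]
      simp only [map_mul, map_add, map_pow, rho_X, rho_C, pt]
      simp [z]
  obtain ⟨ν₁, hν₁⟩ := IsAlgClosed.exists_pow_nat_eq (c₁⁻¹) (n := d - n₁) (by omega)
  obtain ⟨ν₂, hν₂⟩ := IsAlgClosed.exists_pow_nat_eq (c₂⁻¹) (n := d - n₂) (by omega)
  have v1 : ν₁ ≠ 0 := by
    rintro rfl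
    rw [zero_pow (by omega)] at hν₁
    exact inv_ne_zero c1 hν₁.symm
  have v2 : ν₂ ≠ 0 := by
    rintro rfl
    rw [zero_pow (by omega)] at hν₂
    exact inv_ne_zero c2 hν₂.symm
  refine ⟨n₁, n₂, s₁, s₂, ν₁, ν₂, l1, l2, v1, v2, ?_⟩
  have hq : ssub (n := 2) (gf s₁ s₂ ν₁ ν₂) (X 1 * X 2) = C (ν₁ * ν₂) * (X 1 * X 2) := by
    rw [map_mul, gf_X1, gf_X2, C_mul]
    ring
  obtain ⟨b, hb, hb2⟩ := mem_mulS.1 hmem
  have hfe : f = C c₁ * (X 0 + C s₁ * X 1) ^ n₁ * X 1 ^ (d - n₁) +
      C c₂ * (X 0 + C s₂ * X 2) ^ n₂ * X 2 ^ (d - n₂) + X 1 * X 2 * b := by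
    rw [hb2]
    ring
  have w1 : Polynomial.C c₁ * Polynomial.C ν₁ ^ (d - n₁) = 1 := by
    rw [← Polynomial.C_pow, hν₁, ← Polynomial.C_mul, mul_inv_cancel₀ c1, Polynomial.C_1]
  have w2 : Polynomial.C c₂ * Polynomial.C ν₂ ^ (d - n₂) = 1 := by
    rw [← Polynomial.C_pow, hν₂, ← Polynomial.C_mul, mul_inv_cancel₀ c2, Polynomial.C_1]
  have hsf : ssub (n := 2) (gf s₁ s₂ ν₁ ν₂) f =
      C c₁ * (X 0 + C (-(s₁ * ν₁)) * X 1 + C (-(s₂ * ν₂)) * X 2 + C s₁ * (C ν₁ * X 1)) ^ n₁ *
        (C ν₁ * X 1) ^ (d - n₁) +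
      C c₂ * (X 0 + C (-(s₁ * ν₁)) * X 1 + C (-(s₂ * ν₂)) * X 2 + C s₂ * (C ν₂ * X 2)) ^ n₂ *
        (C ν₂ * X 2) ^ (d - n₂) +
      C (ν₁ * ν₂) * (X 1 * X 2) * ssub (n := 2) (gf s₁ s₂ ν₁ ν₂) b := by
    conv_lhs => rw [hfe]
    rw [map_add, map_mul _ (X 1 * X 2) b, hq]
    simp only [map_add, map_mul, map_pow, ssub_C, gf_X0, gf_X1, gf_X2]
  have hhom : ∀ (i : Fin 3) (n : ℕ), n < d →
      (X 0 ^ n * X i ^ (d - n) : MvPolynomial (Fin 3) K).IsHomogeneous d := by
    intro i n hn
    have a2 := ((isHomogeneous_X K 0).pow n).mul ((isHomogeneous_X K i).pow (d - n))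
    have a3 : 1 * n + 1 * (d - n) = d := by omega
    rwa [a3] at a2
  apply mem_of_rho
  · exact (ssub_hom _ hf).sub ((hhom 1 n₁ l1).add (hhom 2 n₂ l2))
  · have z : (0 : Polynomial K) ^ (d - n₂) = 0 := zero_pow (by omega)
    rw [map_sub, hsf]
    simp only [map_mul, map_add, map_pow, rho_X, rho_C, pt]
    simp only [if_true, if_false, Fin.isValue, mul_zero, zero_mul, add_zero, mul_one, one_ne_zero,
      show (2 : Fin 3) ≠ 0 by decide, show (2 : Fin 3) ≠ 1 by decide, z, map_neg, map_mul,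
      one_pow]
    have e : (Polynomial.X + -(Polynomial.C s₁ * Polynomial.C ν₁) +
      Polynomial.C s₁ * Polynomial.C ν₁ : Polynomial K) = Polynomial.X := by ring
    rw [e]
    linear_combination Polynomial.X ^ n₁ * w1
  · have z : (0 : Polynomial K) ^ (d - n₁) = 0 := zero_pow (by omega)
    rw [map_sub, hsf]
    simp only [map_mul, map_add, map_pow, rho_X, rho_C, pt]
    simp only [if_true, if_false, Fin.isValue, mul_zero, zero_mul, add_zero, mul_one, zero_add,
      one_ne_zero, show (2 : Fin 3) ≠ 0 by decide, show (1 : Fin 3) ≠ 2 by decide, z, map_neg,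
      map_mul, one_pow]
    have e : (Polynomial.X + -(Polynomial.C s₂ * Polynomial.C ν₂) +
      Polynomial.C s₂ * Polynomial.C ν₂ : Polynomial K) = Polynomial.X := by ring
    rw [e]
    linear_combination Polynomial.X ^ n₂ * w2

/-- Row NORM3: two lines through the point. -/
theorem norm3 : NormqStatement (X 1 * X 2) := by
  intro K _ _ _ f hf hc hz M hM
  have hq0 : MvPolynomial.map (Int.castRingHom K) (X 1 * X 2 : MvPolynomial (Fin 3) ℤ) =
      X 1 * X 2 := by
    rw [map_mul, map_X, map_X]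
  rw [hq0] at hM ⊢
  obtain ⟨n₁, n₂, s₁, s₂, ν₁, ν₂, l1, l2, v1, v2, hmem⟩ :=
    norm3d hf hc (hz (X 1) (isHomogeneous_X K 1) (X_ne_zero 1))
      (hz (X 2) (isHomogeneous_X K 2) (X_ne_zero 2)) M hM.two hM.fy hM.fq hM.ff
  refine ⟨gf s₁ s₂ ν₁ ν₂, X 0 ^ n₁ * X 1 ^ (6 - n₁) + X 0 ^ n₂ * X 2 ^ (6 - n₂), ![1, 0, 0],
    ν₁ * ν₂, 1, gf_li v1 v2, mul_ne_zero v1 v2, ?_, ?_, ?_⟩
  · rw [hq0, map_mul, gf_X1, gf_X2, C_mul]
    ring
  · rw [hq0]
    simpa using hmem
  · intro j
    rw [Fin.sum_univ_three]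
    fin_cases j <;> simp [gf]

end Pool.Agent.T2.H80
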