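import Pool.Agent.Lib.MP_c7af3c_ag.T2.H80.Norm3

/-!
# MP_c7af3c_ag, project T2, row NORM4: the double line (helper80)
`q0 = X 2 ^ 2`. The form `f` is considered modulo `X 2 ^ 2`: it is given by its restriction to
the line `X 2 = 0` and by the restriction of its derivative with respect to `X 2`. All statements
are for forms of any degree `d`.
-/

set_option autoImplicit false

namespace Pool.Agent.T2.H80

open MvPolynomial Pool.Agent.Gen Pool.Agent.Sharp Pool.Agent.Edge
open Pool.Agent.Sharp.H75 (dco DG af)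
open Pool.Agent.Edge.H65 (ssub ssub_X ssub_C ssub_hom pderiv_ssub)

variable {K : Type} [Field K]

/-! ### forms modulo the double line -/

/-- a form which vanishes twice on the line -/
theorem mem_sq_of_rho {g : MvPolynomial (Fin 3) K} {d : ℕ} (hg : g.IsHomogeneous d)
    (h : rho 1 g = 0) (h' : rho 1 (pderiv 2 g) = 0) : g ∈ mulS (X 2 ^ 2) (d - 2) := by
  classical
  have hpg : (pderiv 2 g).IsHomogeneous (d - 1) := hg.pderiv
  obtain ⟨b, hb, hb2⟩ := exists_quot hg (Finsupp.single 2 2) (fun m hm hs => by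
    have h2 : m 2 < 2 := by
      by_contra h2
      exact hs (Finsupp.single_le_iff.2 (not_lt.1 h2))
    rcases Nat.lt_or_ge (m 2) 1 with h3 | h3
    · have h4 : m 2 = 0 := by omega
      rw [← coeff_rho (i := 1) (by decide) hg m hm (fun j h0 h1 => by
        fin_cases j
        · exact absurd rfl h0
        · exact absurd rfl h1
        · exact h4), h, Polynomial.coeff_zero]
    · have h4 : m 2 = 1 := by omega
      obtain ⟨m', hm'⟩ : ∃ m' : Fin 3 →₀ ℕ, m = m' + Finsupp.single 2 1 := by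
        refine ⟨m - Finsupp.single 2 1, ?_⟩
        rw [tsub_add_cancel_of_le]
        exact Finsupp.single_le_iff.2 (by omega)
      have h5 : m' 2 = 0 := by
        have := DFunLike.congr_fun hm' 2
        rw [Finsupp.add_apply, Finsupp.single_eq_same] at this
        omega
      have h6 : m'.degree = d - 1 := by
        rw [hm', map_add, Finsupp.degree_single] at hm
        omega
      have h7 := coeff_rho (i := 1) (by decide) hpg m' h6 (fun j h0 h1 => by
        fin_cases j
        · exact absurd rfl h0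
        · exact absurd rfl h1
        · exact h5)
      rw [h', Polynomial.coeff_zero, coeff_pderiv, h5] at h7
      rw [hm']
      simpa using h7.symm)
  rw [Finsupp.degree_single] at hb
  refine mem_mulS.2 ⟨b, hb, ?_⟩
  rw [← hb2]
  congr 1
  rw [X_pow_eq_monomial]

theorem rho_sq {g : MvPolynomial (Fin 3) K} {r : ℕ} (h : g ∈ mulS (X 2 ^ 2) r) :
    rho 1 g = 0 ∧ rho 1 (pderiv 2 g) = 0 := by
  obtain ⟨b, -, rfl⟩ := mem_mulS.1 h
  constructor
  · rw [map_mul, map_pow, rho_X]
    simp [pt]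
  · rw [pderiv_mul, pderiv_pow, map_add]
    simp [pt, rho_X]

/-! ### the matrices which fix the point and the double line -/

theorem entries4 [CharZero K] {L : Fin 3 → Fin 3 → K} {c c' : K}
    (hy : ∀ j, ∑ i, L j i * (![1, 0, 0] : Fin 3 → K) i = c' * (![1, 0, 0] : Fin 3 → K) j)
    (hq : af L (X 2 ^ 2) = C c * X 2 ^ 2) :
    L 1 0 = 0 ∧ L 2 0 = 0 ∧ L 2 1 = 0 := by
  have y1 := hy 1
  have y2 := hy 2
  simp [Fin.sum_univ_three] at y1 y2
  have p0 : pderiv 0 (X 2 ^ 2 : MvPolynomial (Fin 3) K) = 0 := by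
    rw [pderiv_pow]; simp
  have p1 : pderiv 1 (X 2 ^ 2 : MvPolynomial (Fin 3) K) = 0 := by
    rw [pderiv_pow]; simp
  have p2 : pderiv 2 (X 2 ^ 2 : MvPolynomial (Fin 3) K) = 2 * X 2 := by
    rw [pderiv_pow]; simp
  have key : ∀ z : Fin 3 → K, (∑ q, L 2 q * z q) * (2 * z 2) = c * z 2 ^ 2 := by
    intro z
    have h := congrArg (eval z) hq
    unfold af Pool.Agent.Sharp.H75.lf at h
    rw [Fin.sum_univ_three, p0, p1, p2] at h
    simp only [map_add, map_mul, map_pow, map_sum, eval_C, eval_X, map_zero, mul_zero, zero_add,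
      map_ofNat] at h
    exact h
  have e1 := key ![0, 1, 1]
  have e2 := key ![0, -1, 1]
  simp [Fin.sum_univ_three] at e1 e2
  refine ⟨y1, y2, ?_⟩
  have e3 : L 2 1 * 4 = 0 := by linear_combination e1 - e2
  simpa using e3

/-- the action on the restriction to the line -/
theorem act4 {L : Fin 3 → Fin 3 → K} {f : MvPolynomial (Fin 3) K} {d : ℕ}
    (hf : f.IsHomogeneous d) (h10 : L 1 0 = 0) (h20 : L 2 0 = 0) (h21 : L 2 1 = 0) :
    rho 1 (af L f) = (Polynomial.C (L 0 0 - L 1 1) * Polynomial.X + Polynomial.C (L 0 1)) *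
      Polynomial.derivative (rho 1 f) + Polynomial.C (d * L 1 1) * rho 1 f := by
  have he : ∑ i, X i * pderiv i f = d • f := hf.sum_X_mul_pderiv
  have he2 := congrArg (rho 1) he
  have h0 : rho 1 (af L f) = ∑ p : Fin 3, rho 1 (Pool.Agent.Sharp.H75.lf (n := 2) (L p)) *
      rho 1 (pderiv p f) := by
    unfold af
    rw [map_sum]
    exact Finset.sum_congr rfl fun p _ => map_mul _ _ _
  rw [Fin.sum_univ_three] at h0 he2
  rw [h0, derivative_rho, rho_lf (by decide), rho_lf (by decide), rho_lf (by decide)]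
  simp only [map_add, map_mul, rho_X, map_nsmul, nsmul_eq_mul, pt] at he2
  simp only [map_mul, map_sub, map_natCast]
  simp at he2 ⊢
  rw [h10, h20, h21]
  simp
  linear_combination (Polynomial.C (L 1 1)) * he2

/-- Euler on the line -/
theorem euler4 {f : MvPolynomial (Fin 3) K} {d : ℕ} (hf : f.IsHomogeneous d) :
    rho 1 (pderiv 1 f) = Polynomial.C (d : K) * rho 1 f -
      Polynomial.X * Polynomial.derivative (rho 1 f) := by
  have he : ∑ i, X i * pderiv i f = d • f := hf.sum_X_mul_pderiv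
  have he2 := congrArg (rho 1) he
  rw [Fin.sum_univ_three] at he2
  rw [derivative_rho]
  simp only [map_add, map_mul, rho_X, map_nsmul, nsmul_eq_mul, pt] at he2
  simp at he2
  rw [map_natCast]
  linear_combination he2

theorem pderiv_comm4 (p r : Fin 3) (H : MvPolynomial (Fin 3) K) :
    pderiv p (pderiv r H) = pderiv r (pderiv p H) := by
  classical
  have h : ⁅pderiv (R := K) p, pderiv (R := K) r⁆ =
      (0 : Derivation K (MvPolynomial (Fin 3) K) _) := by
    refine MvPolynomial.derivation_ext fun i => ?_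
    rw [Derivation.commutator_apply, pderiv_X, pderiv_X]
    by_cases h1 : r = i
    · by_cases h2 : p = i
      · subst h1; subst h2; simp
      · simp [Pi.single_apply, h1]
        split_ifs <;> simp
    · simp [Pi.single_apply, h1]
      split_ifs <;> simp
  have h1 := congrArg (fun d => d H) h
  simp only [Derivation.commutator_apply, Derivation.zero_apply] at h1
  exact sub_eq_zero.1 h1

/-- the derivative of the action with respect to `X 2` -/
theorem pderiv_af (L : Fin 3 → Fin 3 → K) (f : MvPolynomial (Fin 3) K) :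
    pderiv 2 (af L f) = ∑ p, C (L p 2) * pderiv p f + af L (pderiv 2 f) := by
  unfold af
  rw [map_sum, ← Finset.sum_add_distrib]
  refine Finset.sum_congr rfl fun p _ => ?_
  rw [pderiv_mul, Pool.Agent.Sharp.H75.pderiv_lf, pderiv_comm4]

/-- the action on the restriction of the derivative -/
theorem act4' {L : Fin 3 → Fin 3 → K} {f : MvPolynomial (Fin 3) K} {d : ℕ} (hd : 1 ≤ d)
    (hf : f.IsHomogeneous d) (h10 : L 1 0 = 0) (h20 : L 2 0 = 0) (h21 : L 2 1 = 0) :
    rho 1 (pderiv 2 (af L f)) = Polynomial.C (L 0 2) * Polynomial.derivative (rho 1 f) +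
      Polynomial.C (L 1 2) * (Polynomial.C (d : K) * rho 1 f -
        Polynomial.X * Polynomial.derivative (rho 1 f)) +
      Polynomial.C (L 2 2) * rho 1 (pderiv 2 f) +
      (Polynomial.C (L 0 0 - L 1 1) * Polynomial.X + Polynomial.C (L 0 1)) *
      Polynomial.derivative (rho 1 (pderiv 2 f)) +
      Polynomial.C ((d - 1) * L 1 1) * rho 1 (pderiv 2 f) := by
  rw [pderiv_af, map_add, act4 hf.pderiv h10 h20 h21, Fin.sum_univ_three, map_add, map_add,
    map_mul, map_mul, map_mul, rho_C, rho_C, rho_C, euler4 hf, ← derivative_rho]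
  push_cast [Nat.cast_sub hd]
  ring

/-! ### polynomials in one variable -/

theorem exists_ne {M : Submodule K (Fin 3 → Fin 3 → K)} (two : 2 ≤ Module.finrank K M)
    (i j : Fin 3) : ∃ L ∈ M, L ≠ 0 ∧ L i j = 0 := by
  by_contra hn
  push Not at hn
  let u : M →ₗ[K] K :=
    { toFun := fun L => L.1 i j
      map_add' := fun a b => rfl
      map_smul' := fun c a => rfl }
  have hu : Function.Injective u := by
    rw [← LinearMap.ker_eq_bot, LinearMap.ker_eq_bot']
    intro L hL
    by_contra h0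
    exact hn L.1 L.2 (fun h => h0 (Subtype.ext h)) hL
  have h3 := LinearMap.finrank_le_finrank_of_injective hu
  rw [Module.finrank_self] at h3
  omega

/-- the case of a constant restriction -/
theorem core4a [CharZero K] {r1 : Polynomial K} {d : ℕ} (hd2 : 2 ≤ d) (hd1 : r1.natDegree < d)
    {α ε γ θ : K} (hne : ¬ (α = 0 ∧ ε = 0 ∧ γ = 0 ∧ θ = 0))
    (h : Polynomial.C θ + Polynomial.C γ * r1 +
      (Polynomial.C α * Polynomial.X + Polynomial.C ε) * Polynomial.derivative r1 = 0) :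
    ∃ (s κ k : K) (j : ℕ), j < d ∧
      r1 = Polynomial.C k + Polynomial.C κ * (Polynomial.X + Polynomial.C s) ^ j := by
  by_cases hγ : γ = 0
  · subst hγ
    rw [Polynomial.C_0, zero_mul, add_zero] at h
    by_cases hα : α = 0
    · subst hα
      rw [Polynomial.C_0, zero_mul, zero_add] at h
      by_cases hε : ε = 0
      · subst hε
        rw [Polynomial.C_0, zero_mul, add_zero, Polynomial.C_eq_zero] at h
        exact absurd ⟨rfl, rfl, rfl, h⟩ hne
      · have h1 : Polynomial.derivative r1 = Polynomial.C (-θ / ε) := by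
          have h2 : Polynomial.C ε ≠ 0 := by rwa [Ne, Polynomial.C_eq_zero]
          apply mul_left_cancel₀ h2
          rw [← Polynomial.C_mul, mul_div_cancel₀ _ hε, Polynomial.C_neg]
          linear_combination h
        have h3 : Polynomial.derivative (r1 - Polynomial.C (-θ / ε) * Polynomial.X) = 0 := by
          rw [Polynomial.derivative_sub, h1]
          simp
        have h4 := Polynomial.eq_C_of_derivative_eq_zero h3
        refine ⟨0, -θ / ε, (r1 - Polynomial.C (-θ / ε) * Polynomial.X).coeff 0, 1, by omega, ?_⟩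
        rw [← h4, Polynomial.C_0]
        ring
    · have h1 : Polynomial.derivative r1 = 0 := by
        by_contra hne
        have h2 := congrArg (fun p => Polynomial.coeff p
          ((Polynomial.derivative r1).natDegree + 1)) h
        simp only [add_mul, mul_assoc, Polynomial.coeff_add, Polynomial.coeff_C_mul,
          Polynomial.coeff_X_mul, Polynomial.coeff_zero, Polynomial.coeff_C_succ] at h2
        rw [Polynomial.coeff_eq_zero_of_natDegree_lt (Nat.lt_succ_self _), mul_zero, add_zero,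
          zero_add] at h2
        rcases mul_eq_zero.1 h2 with h3 | h3
        · exact hα h3
        · exact hne (Polynomial.leadingCoeff_eq_zero.1 h3)
      have h4 := Polynomial.eq_C_of_derivative_eq_zero h1
      exact ⟨0, 0, r1.coeff 0, 0, by omega, by rw [Polynomial.C_0, zero_mul, add_zero]; exact h4⟩
  · obtain ⟨p, hp⟩ : ∃ p, p = r1 + Polynomial.C (θ / γ) := ⟨_, rfl⟩
    have hr1 : r1 = p - Polynomial.C (θ / γ) := by rw [hp]; ring
    have h1 : (Polynomial.C α * Polynomial.X + Polynomial.C ε) * Polynomial.derivative p +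
        Polynomial.C γ * p = 0 := by
      have h2 : Polynomial.C γ * Polynomial.C (θ / γ) = Polynomial.C θ := by
        rw [← Polynomial.C_mul, mul_div_cancel₀ _ hγ]
      rw [hp, Polynomial.derivative_add, Polynomial.derivative_C]
      linear_combination h + h2
    by_cases hp0 : p = 0
    · refine ⟨0, 0, -(θ / γ), 0, by omega, ?_⟩
      rw [hr1, hp0]
      simp
    · have h2 := lead hp0 h1
      have hα : α ≠ 0 := by
        rintro rfl
        apply hγ
        linear_combination h2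
      have h3 : (Polynomial.X + Polynomial.C (ε / α)) * Polynomial.derivative p =
          Polynomial.C (p.natDegree : K) * p := by
        have h4 : Polynomial.C α ≠ 0 := by rwa [Ne, Polynomial.C_eq_zero]
        apply mul_left_cancel₀ h4
        have h5 : Polynomial.C α * Polynomial.C (ε / α) = Polynomial.C ε := by
          rw [← Polynomial.C_mul, mul_div_cancel₀ _ hα]
        have h6 : Polynomial.C α * Polynomial.C (p.natDegree : K) + Polynomial.C γ = 0 := by
          rw [← Polynomial.C_mul, ← Polynomial.C_add, h2, Polynomial.C_0]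
        linear_combination h1 + Polynomial.derivative p * h5 - p * h6
      obtain ⟨κ, hκ⟩ := pow_form h3
      refine ⟨ε / α, κ, -(θ / γ), p.natDegree, ?_, ?_⟩
      · have h7 : p.natDegree ≤ max r1.natDegree (Polynomial.C (θ / γ)).natDegree := by
          rw [hp]
          exact Polynomial.natDegree_add_le _ _
        rw [Polynomial.natDegree_C] at h7
        omega
      · rw [← hκ, hr1, Polynomial.C_neg]
        ring

/-- the restrictions of the form and of its derivative -/
theorem core4 [CharZero K] {r r1 : Polynomial K} {d : ℕ} (hd2 : 2 ≤ d) (hr : r ≠ 0)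
    (hd : r.natDegree < d) (hd1 : r1.natDegree < d) (M : Submodule K (Fin 3 → Fin 3 → K))
    (two : 2 ≤ Module.finrank K M)
    (h0 : ∀ L ∈ M, L 1 0 = 0 ∧ L 2 0 = 0 ∧ L 2 1 = 0)
    (E0 : ∀ L ∈ M, (Polynomial.C (L 0 0 - L 1 1) * Polynomial.X + Polynomial.C (L 0 1)) *
      Polynomial.derivative r + Polynomial.C (d * L 1 1) * r = 0)
    (E1 : ∀ L ∈ M, Polynomial.C (L 0 2) * Polynomial.derivative r +
      Polynomial.C (L 1 2) * (Polynomial.C (d : K) * r -
        Polynomial.X * Polynomial.derivative r) +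
      Polynomial.C (L 2 2) * r1 +
      (Polynomial.C (L 0 0 - L 1 1) * Polynomial.X + Polynomial.C (L 0 1)) *
      Polynomial.derivative r1 + Polynomial.C ((d - 1) * L 1 1) * r1 = 0) :
    ∃ (c s u v κ : K) (n j : ℕ), c ≠ 0 ∧ n < d ∧ j < d ∧
      r = Polynomial.C c * (Polynomial.X + Polynomial.C s) ^ n ∧
      r1 = Polynomial.C u * Polynomial.derivative r + Polynomial.C v * (Polynomial.C (d : K) * r -
        Polynomial.X * Polynomial.derivative r) +
        Polynomial.C κ * (Polynomial.X + Polynomial.C s) ^ j := by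
  have hd0 : (d : K) ≠ 0 := by
    have : d ≠ 0 := by omega
    exact_mod_cast this
  have hdn : ((d : K) - r.natDegree) ≠ 0 := sub_ne_zero.2 (by exact_mod_cast hd.ne')
  by_cases hr' : Polynomial.derivative r = 0
  · have hrc := Polynomial.eq_C_of_derivative_eq_zero hr'
    obtain ⟨c, hc⟩ : ∃ c, c = r.coeff 0 := ⟨_, rfl⟩
    rw [← hc] at hrc
    have hc0 : c ≠ 0 := by
      rintro rfl
      exact hr (by rw [hrc, Polynomial.C_0])
    have hβ : ∀ L ∈ M, L 1 1 = 0 := by
      intro L hL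
      have h1 := E0 L hL
      rw [hr', mul_zero, zero_add] at h1
      have h2 := (mul_eq_zero.1 h1).resolve_right hr
      rw [Polynomial.C_eq_zero] at h2
      exact (mul_eq_zero.1 h2).resolve_left hd0
    obtain ⟨L, hL, hL0, hη⟩ := exists_ne two 0 2
    obtain ⟨z1, z2, z3⟩ := h0 L hL
    have zβ := hβ L hL
    have h1 := E1 L hL
    rw [hr', zβ, hrc] at h1
    have h2 : Polynomial.C (L 1 2 * (d * c)) + Polynomial.C (L 2 2) * r1 +
        (Polynomial.C (L 0 0) * Polynomial.X + Polynomial.C (L 0 1)) *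
        Polynomial.derivative r1 = 0 := by
      rw [← h1]
      simp only [Polynomial.C_mul, sub_zero, mul_zero, zero_mul, add_zero, Polynomial.C_0,
        zero_add]
    obtain ⟨s, κ, k, j, hj, hk⟩ := core4a hd2 hd1 (fun h => hL0 (by
      obtain ⟨a1, a2, a3, a4⟩ := h
      have a5 : L 1 2 = 0 := (mul_eq_zero.1 a4).resolve_right (mul_ne_zero hd0 hc0)
      funext i j
      fin_cases i <;> fin_cases j <;> simp [a1, a2, a3, a5, z1, z2, z3, zβ, hη])) h2
    refine ⟨c, s, 0, k / (d * c), κ, 0, j, hc0, by omega, hj, by rw [pow_zero, mul_one]; exact hrc, ?_⟩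
    rw [hr', hk, hrc]
    have h3 : Polynomial.C (k / (d * c)) * (Polynomial.C (d : K) * Polynomial.C c) =
        Polynomial.C k := by
      rw [← Polynomial.C_mul, ← Polynomial.C_mul, div_mul_cancel₀ _ (mul_ne_zero hd0 hc0)]
    linear_combination -h3
  · have hM1 : ∀ L ∈ M, L 0 0 = 0 → L 1 1 = 0 ∧ L 0 1 = 0 := by
      intro L hL hα
      have h3 := E0 L hL
      have h4 := lead hr h3
      rw [hα] at h4
      have h5 : L 1 1 = 0 := by
        have h6 : ((d : K) - r.natDegree) * L 1 1 = 0 := by linear_combination h4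
        exact (mul_eq_zero.1 h6).resolve_left hdn
      refine ⟨h5, ?_⟩
      rw [h5, hα] at h3
      have h7 : Polynomial.C (L 0 1) * Polynomial.derivative r = 0 := by simpa using h3
      have h8 := (mul_eq_zero.1 h7).resolve_right hr'
      rwa [Polynomial.C_eq_zero] at h8
    have hγ : ∀ L ∈ M, L 0 0 = 0 → L 2 2 = 0 → L = 0 := by
      intro L hL hα hγ
      obtain ⟨z1, z2, z3⟩ := h0 L hL
      obtain ⟨z4, z5⟩ := hM1 L hL hα
      have h3 := E1 L hL
      rw [hα, hγ, z4, z5] at h3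
      have h4 : (Polynomial.C (-L 1 2) * Polynomial.X + Polynomial.C (L 0 2)) *
          Polynomial.derivative r + Polynomial.C (L 1 2 * d) * r = 0 := by
        rw [← h3]
        simp only [Polynomial.C_mul, Polynomial.C_neg, sub_zero, mul_zero, zero_mul, add_zero,
          Polynomial.C_0]
        ring
      have h5 := lead hr h4
      have h6 : L 1 2 = 0 := by
        have h7 : ((d : K) - r.natDegree) * L 1 2 = 0 := by linear_combination h5
        exact (mul_eq_zero.1 h7).resolve_left hdn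
      have h8 : L 0 2 = 0 := by
        rw [h6] at h4
        have h9 : Polynomial.C (L 0 2) * Polynomial.derivative r = 0 := by simpa using h4
        have h10 := (mul_eq_zero.1 h9).resolve_right hr'
        rwa [Polynomial.C_eq_zero] at h10
      funext i j
      fin_cases i <;> fin_cases j <;> simp [z1, z2, z3, z4, z5, h6, h8, hα, hγ]
    have hα : ∃ L ∈ M, L 0 0 ≠ 0 := by
      by_contra hn
      push Not at hn
      obtain ⟨L, hL, hL0, hγ0⟩ := exists_ne two 2 2
      exact hL0 (hγ L hL (hn L hL) hγ0)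
    obtain ⟨L, hL, hα⟩ := hα
    obtain ⟨s, c, hsc⟩ := form_of hr hd hα (E0 L hL)
    have hc0 : c ≠ 0 := by
      rintro rfl
      apply hr
      rw [hsc, Polynomial.C_0, zero_mul]
    obtain ⟨L', hL', hL0', hα'⟩ := exists_ne two 0 0
    have hγ' : L' 2 2 ≠ 0 := fun h => hL0' (hγ L' hL' hα' h)
    obtain ⟨z4, z5⟩ := hM1 L' hL' hα'
    have h3 := E1 L' hL'
    rw [hα', z4, z5] at h3
    refine ⟨c, s, -(L' 0 2 / L' 2 2), -(L' 1 2 / L' 2 2), 0, r.natDegree, 0, hc0, hd, by omega,
      hsc, ?_⟩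
    have h4 : Polynomial.C (L' 2 2) ≠ 0 := by rwa [Ne, Polynomial.C_eq_zero]
    apply mul_left_cancel₀ h4
    have h5 : Polynomial.C (L' 2 2) * Polynomial.C (-(L' 0 2 / L' 2 2)) =
        -Polynomial.C (L' 0 2) := by
      rw [← Polynomial.C_mul, ← Polynomial.C_neg]
      congr 1
      field_simp
    have h6 : Polynomial.C (L' 2 2) * Polynomial.C (-(L' 1 2 / L' 2 2)) =
        -Polynomial.C (L' 1 2) := by
      rw [← Polynomial.C_mul, ← Polynomial.C_neg]
      congr 1
      field_simp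
    have h7 : Polynomial.C (L' 0 2) * Polynomial.derivative r +
        Polynomial.C (L' 1 2) * (Polynomial.C (d : K) * r -
        Polynomial.X * Polynomial.derivative r) + Polynomial.C (L' 2 2) * r1 = 0 := by
      rw [← h3]
      simp only [sub_zero, mul_zero, zero_mul, add_zero, Polynomial.C_0]
    rw [Polynomial.C_0, zero_mul, add_zero]
    linear_combination h7 - Polynomial.derivative r * h5 - (Polynomial.C (d : K) * r -
        Polynomial.X * Polynomial.derivative r) * h6

/-! ### the normal form -/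

/-- the frame -/
def gf4 (s u v ν₁ ν₂ : K) : Fin 3 → Fin 3 → K :=
  ![![1, 0, 0], ![-(s * ν₁), ν₁, 0], ![-(u * ν₂), -(v * ν₂), ν₂]]

theorem gf4_X0 (s u v ν₁ ν₂ : K) : ssub (n := 2) (gf4 s u v ν₁ ν₂) (X 0) =
    X 0 + C (-(s * ν₁)) * X 1 + C (-(u * ν₂)) * X 2 := by
  rw [ssub_X, Fin.sum_univ_three]
  simp [gf4]

theorem gf4_X1 (s u v ν₁ ν₂ : K) : ssub (n := 2) (gf4 s u v ν₁ ν₂) (X 1) =
    C ν₁ * X 1 + C (-(v * ν₂)) * X 2 := by
  rw [ssub_X, Fin.sum_univ_three]
  simp [gf4]

theorem gf4_X2 (s u v ν₁ ν₂ : K) : ssub (n := 2) (gf4 s u v ν₁ ν₂) (X 2) = C ν₂ * X 2 := by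
  rw [ssub_X, Fin.sum_univ_three]
  simp [gf4]

theorem gf4_li {s u v ν₁ ν₂ : K} (h1 : ν₁ ≠ 0) (h2 : ν₂ ≠ 0) :
    LinearIndependent K (gf4 s u v ν₁ ν₂) := by
  rw [Fintype.linearIndependent_iff]
  intro a ha
  have e0 := congrFun ha 0
  have e1 := congrFun ha 1
  have e2 := congrFun ha 2
  simp [Fin.sum_univ_three, gf4] at e0 e1 e2
  have a2 : a 2 = 0 := e2.resolve_right h2
  rw [a2] at e0 e1
  have a1 : a 1 = 0 := by
    have e3 : a 1 * ν₁ = 0 := by linear_combination e1
    exact (mul_eq_zero.1 e3).resolve_right h1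
  rw [a1] at e0
  have a0 : a 0 = 0 := by linear_combination e0
  intro i
  fin_cases i
  · exact a0
  · exact a1
  · exact a2

/-- the restriction after the substitution -/
theorem rho_gf4 (s u v ν₁ ν₂ : K) (h : MvPolynomial (Fin 3) K) :
    rho 1 (ssub (n := 2) (gf4 s u v ν₁ ν₂) h) =
      aeval (![Polynomial.X + Polynomial.C (-(s * ν₁)), Polynomial.C ν₁, 0] :
        Fin 3 → Polynomial K) h := by
  induction h using MvPolynomial.induction_on with
  | C a => rw [ssub_C, rho_C, aeval_C]; rfl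
  | add p q hp hq => rw [map_add, map_add, hp, hq, map_add]
  | mul_X p j hp =>
    rw [map_mul, map_mul, hp, map_mul]
    congr 1
    rw [aeval_X]
    fin_cases j
    · change rho 1 (ssub (n := 2) (gf4 s u v ν₁ ν₂) (X 0)) = _
      rw [gf4_X0]
      simp [rho_X, rho_C, pt]
    · change rho 1 (ssub (n := 2) (gf4 s u v ν₁ ν₂) (X 1)) = _
      rw [gf4_X1]
      simp [rho_X, rho_C, pt]
    · change rho 1 (ssub (n := 2) (gf4 s u v ν₁ ν₂) (X 2)) = _
      rw [gf4_X2]
      simp [rho_X, rho_C, pt]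

/-- The normal form for the double line, forms of degree `d`. -/
theorem norm4d [CharZero K] [IsAlgClosed K] {f : MvPolynomial (Fin 3) K} {d : ℕ} (hd2 : 2 ≤ d)
    (hf : f.IsHomogeneous d) (hc : coeff (Finsupp.single 0 d) f = 0)
    (hz2 : f ∉ mulS (X 2) (d - 1))
    (M : Submodule K (Fin 3 → Fin 3 → K)) (two : 2 ≤ Module.finrank K M)
    (fy : ∀ L ∈ M, ∃ c, ∀ j, ∑ i, L j i * (![1, 0, 0] : Fin 3 → K) i =
      c * (![1, 0, 0] : Fin 3 → K) j)
    (fq : ∀ L ∈ M, ∃ c, af L (X 2 ^ 2) = C c * X 2 ^ 2)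
    (ff : ∀ L ∈ M, af L f ∈ mulS (X 2 ^ 2) (d - 2)) :
    ∃ (n j : ℕ) (t : ℤ) (s u v ν₁ ν₂ : K), n < d ∧ j < d ∧ ν₁ ≠ 0 ∧ ν₂ ≠ 0 ∧
      ssub (n := 2) (gf4 s u v ν₁ ν₂) f -
        (X 0 ^ n * X 1 ^ (d - n) + C (t : K) * (X 2 * (X 0 ^ j * X 1 ^ (d - 1 - j)))) ∈
          mulS (X 2 ^ 2) (d - 2) := by
  have h1 : rho 1 f ≠ 0 := fun h => hz2 (mem_of_rho_one hf h)
  have l1 := natDegree_rho (i := 1) (by decide) hf hc h1
  have l2 : (rho 1 (pderiv 2 f)).natDegree < d := by
    refine lt_of_le_of_lt (Polynomial.natDegree_le_iff_coeff_eq_zero.2 fun n hn =>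
      coeff_rho_gt hf.pderiv hn) (by omega : d - 1 < d)
  have hent : ∀ L ∈ M, L 1 0 = 0 ∧ L 2 0 = 0 ∧ L 2 1 = 0 := by
    intro L hL
    obtain ⟨c', hy⟩ := fy L hL
    obtain ⟨c, hq⟩ := fq L hL
    exact entries4 hy hq
  obtain ⟨c, s, u, v, κ, n, j, hc0, hn, hj, e1, e2⟩ := core4 hd2 h1 l1 l2 M two hent
    (fun L hL => by
      obtain ⟨z1, z2, z3⟩ := hent L hL
      rw [← act4 hf z1 z2 z3]
      exact (rho_sq (ff L hL)).1)
    (fun L hL => by
      obtain ⟨z1, z2, z3⟩ := hent L hL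
      rw [← act4' (by omega) hf z1 z2 z3]
      exact (rho_sq (ff L hL)).2)
  obtain ⟨F0, hF0⟩ : ∃ F0 : MvPolynomial (Fin 3) K,
      F0 = C c * (X 0 + C s * X 1) ^ n * X 1 ^ (d - n) := ⟨_, rfl⟩
  obtain ⟨F2, hF2⟩ : ∃ F2 : MvPolynomial (Fin 3) K,
      F2 = (X 0 + C s * X 1) ^ j * X 1 ^ (d - 1 - j) := ⟨_, rfl⟩
  have b1 : (X 0 + C s * X 1 : MvPolynomial (Fin 3) K).IsHomogeneous 1 := by
    refine (isHomogeneous_X K 0).add ?_
    have := (isHomogeneous_C (Fin 3) s).mul (isHomogeneous_X K 1)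
    simpa using this
  have hF0h : F0.IsHomogeneous d := by
    have a2 := ((isHomogeneous_C (Fin 3) c).mul (b1.pow n)).mul
      ((isHomogeneous_X K 1).pow (d - n))
    have a3 : 0 + 1 * n + 1 * (d - n) = d := by omega
    rwa [a3, ← hF0] at a2
  have hF2h : F2.IsHomogeneous (d - 1) := by
    have a2 := (b1.pow j).mul ((isHomogeneous_X K 1).pow (d - 1 - j))
    have a3 : 1 * j + 1 * (d - 1 - j) = d - 1 := by omega
    rwa [a3, ← hF2] at a2
  obtain ⟨F1, hF1⟩ : ∃ F1 : MvPolynomial (Fin 3) K,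
      F1 = C u * pderiv 0 F0 + C v * pderiv 1 F0 + C κ * F2 := ⟨_, rfl⟩
  have hCm : ∀ (a : K) {g : MvPolynomial (Fin 3) K} {e : ℕ}, g.IsHomogeneous e →
      (C a * g).IsHomogeneous e := by
    intro a g e hg
    have := (isHomogeneous_C (Fin 3) a).mul hg
    rwa [zero_add] at this
  have hF1h : F1.IsHomogeneous (d - 1) := by
    rw [hF1]
    exact ((hCm u hF0h.pderiv).add (hCm v hF0h.pderiv)).add (hCm κ hF2h)
  have hX2 : ∀ {g : MvPolynomial (Fin 3) K}, g.IsHomogeneous (d - 1) →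
      (X 2 * g).IsHomogeneous d := by
    intro g hg
    have := (isHomogeneous_X K 2).mul hg
    rwa [show 1 + (d - 1) = d by omega] at this
  have r0 : rho 1 F0 = rho 1 f := by
    rw [e1, hF0]
    simp [rho_X, rho_C, pt]
  have r2 : rho 1 F2 = (Polynomial.X + Polynomial.C s) ^ j := by
    rw [hF2]
    simp [rho_X, rho_C, pt]
  have r1 : rho 1 F1 = rho 1 (pderiv 2 f) := by
    rw [e2, hF1, map_add, map_add, map_mul, map_mul, map_mul, rho_C, rho_C, rho_C, euler4 hF0h,
      ← derivative_rho, r0, r2]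
  have p2F0 : pderiv 2 F0 = 0 := by
    rw [hF0, pderiv_mul, pderiv_mul, pderiv_pow, pderiv_pow]
    simp
  have rX2 : rho (K := K) 1 (X 2) = 0 := by
    rw [rho_X]
    simp [pt]
  have hmem : f - (F0 + X 2 * F1) ∈ mulS (X 2 ^ 2) (d - 2) := by
    apply mem_sq_of_rho (hf.sub (hF0h.add (hX2 hF1h)))
    · rw [map_sub, map_add, map_mul, rX2, r0]
      ring
    · rw [map_sub, map_sub, map_add, map_add, p2F0, map_zero, pderiv_mul, pderiv_X_self, one_mul,
        map_add, map_mul, rX2, r1]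
      ring
  obtain ⟨b, hb, hb2⟩ := mem_mulS.1 hmem
  have hfe : f = F0 + X 2 * F1 + X 2 ^ 2 * b := by
    rw [hb2]
    ring
  obtain ⟨ν₁, hν₁⟩ := IsAlgClosed.exists_pow_nat_eq (c⁻¹) (n := d - n) (by omega)
  have v1 : ν₁ ≠ 0 := by
    rintro rfl
    rw [zero_pow (by omega)] at hν₁
    exact inv_ne_zero hc0 hν₁.symm
  obtain ⟨ν₂, t, v2, ht⟩ : ∃ (ν₂ : K) (t : ℤ), ν₂ ≠ 0 ∧ ν₂ * (κ * ν₁ ^ (d - 1 - j)) = t := by
    by_cases hκ : κ = 0
    · exact ⟨1, 0, one_ne_zero, by rw [hκ]; simp⟩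
    · have h3 : κ * ν₁ ^ (d - 1 - j) ≠ 0 := mul_ne_zero hκ (pow_ne_zero _ v1)
      exact ⟨(κ * ν₁ ^ (d - 1 - j))⁻¹, 1, inv_ne_zero h3, by
        rw [inv_mul_cancel₀ h3, Int.cast_one]⟩
  refine ⟨n, j, t, s, u, v, ν₁, ν₂, hn, hj, v1, v2, ?_⟩
  have hsf : ssub (n := 2) (gf4 s u v ν₁ ν₂) f = ssub (n := 2) (gf4 s u v ν₁ ν₂) F0 +
      C ν₂ * X 2 * ssub (n := 2) (gf4 s u v ν₁ ν₂) F1 +
      (C ν₂ * X 2) ^ 2 * ssub (n := 2) (gf4 s u v ν₁ ν₂) b := by
    conv_lhs => rw [hfe]
    rw [map_add, map_add, map_mul, map_mul, map_pow, gf4_X2]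
  have w1 : Polynomial.C c * Polynomial.C ν₁ ^ (d - n) = 1 := by
    rw [← Polynomial.C_pow, hν₁, ← Polynomial.C_mul, mul_inv_cancel₀ hc0, Polynomial.C_1]
  have w2 : Polynomial.C ν₂ * (Polynomial.C κ * Polynomial.C ν₁ ^ (d - 1 - j)) =
      Polynomial.C (t : K) := by
    rw [← Polynomial.C_pow, ← Polynomial.C_mul, ← Polynomial.C_mul, ht]
  have g0 : rho 1 (ssub (n := 2) (gf4 s u v ν₁ ν₂) F0) = Polynomial.X ^ n := by
    rw [rho_gf4, hF0]
    simp only [map_mul, map_add, map_pow, aeval_X, aeval_C]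
    simp only [Matrix.cons_val_zero, Matrix.cons_val_one, Polynomial.algebraMap_eq, map_neg,
      map_mul]
    have e : (Polynomial.X + -(Polynomial.C s * Polynomial.C ν₁) +
      Polynomial.C s * Polynomial.C ν₁ : Polynomial K) = Polynomial.X := by ring
    rw [e]
    linear_combination Polynomial.X ^ n * w1
  have g2 : rho 1 (ssub (n := 2) (gf4 s u v ν₁ ν₂) F2) =
      Polynomial.X ^ j * Polynomial.C ν₁ ^ (d - 1 - j) := by
    rw [rho_gf4, hF2]
    simp only [map_mul, map_add, map_pow, aeval_X, aeval_C]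
    simp only [Matrix.cons_val_zero, Matrix.cons_val_one, Polynomial.algebraMap_eq, map_neg,
      map_mul]
    have e : (Polynomial.X + -(Polynomial.C s * Polynomial.C ν₁) +
      Polynomial.C s * Polynomial.C ν₁ : Polynomial K) = Polynomial.X := by ring
    rw [e]
  have gp : rho 1 (pderiv 2 (ssub (n := 2) (gf4 s u v ν₁ ν₂) F0)) =
      -(Polynomial.C u * Polynomial.C ν₂) * rho 1 (ssub (n := 2) (gf4 s u v ν₁ ν₂) (pderiv 0 F0)) +
      -(Polynomial.C v * Polynomial.C ν₂) *
        rho 1 (ssub (n := 2) (gf4 s u v ν₁ ν₂) (pderiv 1 F0)) := by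
    rw [pderiv_ssub, Fin.sum_univ_three, p2F0]
    simp [gf4, rho_C]
  have g1 : rho 1 (ssub (n := 2) (gf4 s u v ν₁ ν₂) F1) =
      Polynomial.C u * rho 1 (ssub (n := 2) (gf4 s u v ν₁ ν₂) (pderiv 0 F0)) +
      Polynomial.C v * rho 1 (ssub (n := 2) (gf4 s u v ν₁ ν₂) (pderiv 1 F0)) +
      Polynomial.C κ * (Polynomial.X ^ j * Polynomial.C ν₁ ^ (d - 1 - j)) := by
    rw [hF1]
    simp only [map_add, map_mul, ssub_C, rho_C]
    rw [g2]
  have hh : (X 0 ^ n * X 1 ^ (d - n) : MvPolynomial (Fin 3) K).IsHomogeneous d := by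
    have a2 := ((isHomogeneous_X K (0 : Fin 3)).pow n).mul
      ((isHomogeneous_X K (1 : Fin 3)).pow (d - n))
    have a3 : 1 * n + 1 * (d - n) = d := by omega
    rwa [a3] at a2
  have hh' : (X 0 ^ j * X 1 ^ (d - 1 - j) : MvPolynomial (Fin 3) K).IsHomogeneous (d - 1) := by
    have a2 := ((isHomogeneous_X K (0 : Fin 3)).pow j).mul
      ((isHomogeneous_X K (1 : Fin 3)).pow (d - 1 - j))
    have a3 : 1 * j + 1 * (d - 1 - j) = d - 1 := by omega
    rwa [a3] at a2
  apply mem_sq_of_rho ((ssub_hom _ hf).sub (hh.add (hCm _ (hX2 hh'))))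
  · rw [map_sub, hsf, map_add, map_add, map_add, map_mul, map_mul, map_mul, map_pow, map_mul,
      rX2, g0]
    simp [rho_X, rho_C, pt]
  · have k1 : rho 1 (pderiv 2 (C ν₂ * X 2 * ssub (n := 2) (gf4 s u v ν₁ ν₂) F1)) =
        Polynomial.C ν₂ * rho 1 (ssub (n := 2) (gf4 s u v ν₁ ν₂) F1) := by
      rw [pderiv_mul, pderiv_C_mul, pderiv_X_self, map_add, map_mul, map_mul, map_mul, map_mul,
        rX2, rho_C, map_one]
      ring
    have k2 : rho 1 (pderiv 2 ((C ν₂ * X 2) ^ 2 * ssub (n := 2) (gf4 s u v ν₁ ν₂) b)) = 0 := by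
      rw [pderiv_mul, pderiv_pow, map_add]
      simp [rX2]
    have k3 : rho 1 (pderiv 2 (X 0 ^ n * X 1 ^ (d - n) +
        C (t : K) * (X 2 * (X 0 ^ j * X 1 ^ (d - 1 - j))))) =
        Polynomial.C (t : K) * Polynomial.X ^ j := by
      rw [map_add, pderiv_mul, pderiv_pow, pderiv_pow, pderiv_C_mul, pderiv_mul, pderiv_X_self]
      simp [rho_X, rho_C, pt]
    rw [map_sub, map_sub, k3, hsf, map_add, map_add, map_add, map_add, k1, k2, gp, g1]
    linear_combination Polynomial.X ^ j * w2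

/-- Row NORM4: the double line. -/
theorem norm4 : NormqStatement (X 2 ^ 2) := by
  intro K _ _ _ f hf hc hz M hM
  have hq0 : MvPolynomial.map (Int.castRingHom K) (X 2 ^ 2 : MvPolynomial (Fin 3) ℤ) =
      X 2 ^ 2 := by
    rw [map_pow, map_X]
  rw [hq0] at hM ⊢
  obtain ⟨n, j, t, s, u, v, ν₁, ν₂, -, -, v1, v2, hmem⟩ :=
    norm4d (by norm_num) hf hc (hz (X 2) (isHomogeneous_X K 2) (X_ne_zero 2)) M hM.two hM.fy
      hM.fq hM.ff
  refine ⟨gf4 s u v ν₁ ν₂, X 0 ^ n * X 1 ^ (6 - n) + C t * (X 2 * (X 0 ^ j * X 1 ^ (6 - 1 - j))),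
    ![1, 0, 0], ν₂ ^ 2, 1, gf4_li v1 v2, pow_ne_zero _ v2, ?_, ?_, ?_⟩
  · rw [hq0, map_pow, gf4_X2, C_pow]
    ring
  · rw [hq0]
    simpa using hmem
  · intro j
    rw [Fin.sum_univ_three]
    fin_cases j <;> simp [gf4]

end Pool.Agent.T2.H80
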